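import Pool.Agent.Helper34.EC.Defs

/-!
# Project EC, for modules B4, B5: primes in power series, the map to the generic fibre
-/

set_option autoImplicit false

namespace Pool.Agent.Helper55.EC

open Polynomial TensorProduct Pool.Agent.Helper34.EC

/-! ### Power series over a domain -/

theorem prime_C_powerSeries {R : Type} [CommRing R] {p : R} (hp : Prime p) :
    Prime (PowerSeries.C p : PowerSeries R) := by
  have hdvd : ∀ f : PowerSeries R, PowerSeries.C p ∣ f ↔ ∀ n, p ∣ PowerSeries.coeff n f := by
    intro f
    constructor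
    · rintro ⟨h, rfl⟩ n
      rw [PowerSeries.coeff_C_mul]
      exact dvd_mul_right _ _
    · intro h
      choose q hq using h
      exact ⟨PowerSeries.mk q, by ext n; rw [PowerSeries.coeff_C_mul, PowerSeries.coeff_mk, hq]⟩
  have : (Ideal.span {p}).IsPrime := (Ideal.span_singleton_prime hp.ne_zero).2 hp
  have hmap : ∀ f : PowerSeries R,
      PowerSeries.C p ∣ f ↔ PowerSeries.map (Ideal.Quotient.mk (Ideal.span {p})) f = 0 := by
    intro f
    rw [hdvd]
    constructor
    · intro h
      ext n
      rw [PowerSeries.coeff_map, map_zero]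
      exact Ideal.Quotient.eq_zero_iff_mem.2 (Ideal.mem_span_singleton.2 (h n))
    · intro h n
      have h1 := congrArg (PowerSeries.coeff n) h
      rw [PowerSeries.coeff_map, map_zero] at h1
      exact Ideal.mem_span_singleton.1 (Ideal.Quotient.eq_zero_iff_mem.1 h1)
  refine ⟨?_, ?_, ?_⟩
  · intro h
    have h1 := congrArg (PowerSeries.coeff 0) h
    rw [PowerSeries.coeff_zero_C, map_zero] at h1
    exact hp.ne_zero h1
  · intro h
    apply hp.not_isUnit
    have h1 := h.map (PowerSeries.constantCoeff (R := R))
    rwa [PowerSeries.constantCoeff_C] at h1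
  · intro a b h
    rw [hmap, map_mul, mul_eq_zero] at h
    rw [hmap, hmap]
    exact h

/-! ### The map to the generic fibre -/

section

variable {k : Type} [Field k] {g : ℕ} (c : Pts k g)

theorem DD_ne_zero (c : Fin g × Bool → k) : DD c ≠ 0 :=
  (monic_prod_of_monic _ _ fun _ _ => monic_X_sub_C _).ne_zero

theorem io_injective (c : Fin g × Bool → k) : Function.Injective (io c) := by
  rw [injective_iff_map_eq_zero]
  intro r hr
  ext n
  have h := congrArg (PowerSeries.coeff n) hr
  rw [coeff_io, map_zero, mul_eq_zero] at h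
  rcases h with h | h
  · exact absurd h (pow_ne_zero _ (DD_ne_zero c))
  · rw [map_zero]
    exact C_eq_zero.1 h

theorem algebraMap_injective : Function.Injective (algebraMap (PowerSeries k) c.A) := by
  intro r r' h
  apply io_injective c.c
  rw [← c.ps_algebraMap, ← c.ps_algebraMap, h]

/-- The map to the generic fibre. -/
noncomputable def jj : c.A →ₐ[PowerSeries k] c.AF := Algebra.TensorProduct.includeRight

theorem jj_apply (f : c.A) : jj c f = (1 : LaurentSeries k) ⊗ₜ[PowerSeries k] f := rfl

theorem jj_isLocalizedModule :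
    IsLocalizedModule (nonZeroDivisors (PowerSeries k)) (jj c).toLinearMap := by
  have h := (isLocalizedModule_iff_isBaseChange (nonZeroDivisors (PowerSeries k))
    (LaurentSeries k) (TensorProduct.mk (PowerSeries k) (LaurentSeries k) c.A 1)).2
    (TensorProduct.isBaseChange (PowerSeries k) c.A (LaurentSeries k))
  exact h

theorem jj_injective : Function.Injective (jj c) := by
  have := jj_isLocalizedModule c
  intro x y h
  have h' : (jj c).toLinearMap x = (jj c).toLinearMap y := h
  obtain ⟨r, hr⟩ := (IsLocalizedModule.eq_iff_exists (nonZeroDivisors (PowerSeries k))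
    (jj c).toLinearMap).1 h'
  have hr0 : (r : PowerSeries k) ≠ 0 := nonZeroDivisors.coe_ne_zero r
  have h1 : algebraMap (PowerSeries k) c.A r * (x - y) = 0 := by
    rw [mul_sub, sub_eq_zero, ← Algebra.smul_def, ← Algebra.smul_def]
    exact hr
  rcases mul_eq_zero.1 h1 with h2 | h2
  · exact absurd (algebraMap_injective c (h2.trans (map_zero _).symm)) hr0
  · exact sub_eq_zero.1 h2

theorem jj_surj (a : c.AF) : ∃ r : PowerSeries k, r ≠ 0 ∧ ∃ f : c.A, jj c f = r • a := by
  have := jj_isLocalizedModule c
  obtain ⟨⟨f, r⟩, h⟩ := IsLocalizedModule.surj (nonZeroDivisors (PowerSeries k))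
    (jj c).toLinearMap a
  exact ⟨r, nonZeroDivisors.coe_ne_zero r, f, h.symm⟩

end

end Pool.Agent.Helper55.EC
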