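import Pool.Agent.Helper55.EC.Lim
import Pool.Agent.Helper55.EC.GenFib

/-!
# Project EC, module B4: the restriction to the special fibre, along the diagonal
-/

set_option autoImplicit false

namespace Pool.Agent.Helper55.EC

open Polynomial TensorProduct Pool.Agent.Helper34.EC

section

variable {k : Type} [Field k] {g : ℕ} (c : Pts k g)

/-! ### The two maps to the power series in `U = t / (D(z) D(w))` -/

/-- The element `∑ P_n(z) D(w)^n U^n`. -/
noncomputable def al : c.A →+* PowerSeries (k[X][X]) :=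
  ((PowerSeries.rescale ((DD c.c).map C)).comp (PowerSeries.map C)).comp c.ps

/-- The element `∑ P_n(w) D(z)^n U^n`. -/
noncomputable def be : c.A →+* PowerSeries (k[X][X]) :=
  ((PowerSeries.rescale (C (DD c.c))).comp (PowerSeries.map (mapRingHom C))).comp c.ps

theorem coeff_al (f : c.A) (n : ℕ) : PowerSeries.coeff n (al c f) =
    ((DD c.c).map C) ^ n * C (PowerSeries.coeff n (c.ps f)) := by
  simp [al, PowerSeries.coeff_rescale]

theorem coeff_be (f : c.A) (n : ℕ) : PowerSeries.coeff n (be c f) =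
    (C (DD c.c)) ^ n * (PowerSeries.coeff n (c.ps f)).map C := by
  simp [be, PowerSeries.coeff_rescale]

theorem eval_X_al (f : c.A) (n : ℕ) :
    eval X (PowerSeries.coeff n (al c f)) = DD c.c ^ n * PowerSeries.coeff n (c.ps f) := by
  rw [coeff_al, eval_mul, eval_pow, eval_map, eval₂_C_X, eval_C]

theorem eval_X_be (f : c.A) (n : ℕ) :
    eval X (PowerSeries.coeff n (be c f)) = DD c.c ^ n * PowerSeries.coeff n (c.ps f) := by
  rw [coeff_be, eval_mul, eval_pow, eval_map, eval₂_C_X, eval_C]

theorem dvd_iff (h : PowerSeries (k[X][X])) :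
    PowerSeries.C (X - C X : k[X][X]) ∣ h ↔ ∀ n, eval X (PowerSeries.coeff n h) = 0 := by
  constructor
  · rintro ⟨q, rfl⟩ n
    rw [PowerSeries.coeff_C_mul, eval_mul]
    simp
  · intro hn
    have h1 : ∀ n, (X - C X : k[X][X]) ∣ PowerSeries.coeff n h := fun n => dvd_iff_isRoot.2 (hn n)
    choose q hq using h1
    exact ⟨PowerSeries.mk q, by ext1 n; rw [PowerSeries.coeff_C_mul, PowerSeries.coeff_mk, hq]⟩

theorem ps_zero_of {f : c.A} (h : ∀ n, DD c.c ^ n * PowerSeries.coeff n (c.ps f) = 0) : f = 0 := by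
  apply c.ps_injective
  rw [map_zero]
  ext1 n
  rw [map_zero]
  exact (mul_eq_zero.1 (h n)).resolve_left (pow_ne_zero _ (DD_ne_zero c.c))

end

section B

variable {k : Type} [Field k] {g : ℕ} (c : Pts k g) {ι : Type} (s : Finset ι) (u v : ι → c.A)
  (b : c.AF) (hb : b ≠ 0) (γ : ℕ)
  (hx : (b ⊗ₜ[LaurentSeries k] b) * ∑ l ∈ s,
    ((1 : LaurentSeries k) ⊗ₜ[PowerSeries k] (u l) : c.AF) ⊗ₜ[LaurentSeries k]
      ((1 : LaurentSeries k) ⊗ₜ[PowerSeries k] (v l) : c.AF) ∈
        (KaehlerDifferential.ideal (LaurentSeries k) c.AF) ^ γ)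

include hb hx

/-- EC-B4 -/
theorem diag_dvd : (X - C X : k[X][X]) ^ γ ∣ c.red s u v := by
  have hξ : Prime (PowerSeries.C (X - C X : k[X][X])) :=
    prime_C_powerSeries (prime_X_sub_C X)
  have h := lim (R := PowerSeries k) (F := LaurentSeries k) (jj c) (jj_injective c) (jj_surj c)
    (al c) (be c) (PowerSeries.C (X - C X : k[X][X])) hξ ?_ ?_ ?_ ?_ γ s u v b hb hx
  · have h1 := map_dvd (PowerSeries.constantCoeff (R := k[X][X])) h
    rw [map_pow, PowerSeries.constantCoeff_C, map_sum] at h1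
    have h2 : ∑ l ∈ s, PowerSeries.constantCoeff (al c (u l) * be c (v l)) = c.red s u v := by
      unfold Pts.red
      refine Finset.sum_congr rfl fun l _ => ?_
      rw [map_mul, ← PowerSeries.coeff_zero_eq_constantCoeff_apply,
        ← PowerSeries.coeff_zero_eq_constantCoeff_apply, coeff_al, coeff_be, pow_zero, pow_zero,
        one_mul, one_mul]
    rwa [h2] at h1
  · intro r
    ext1 n
    rw [coeff_al, coeff_be, c.ps_algebraMap, coeff_io]
    simp only [map_mul, map_pow, Polynomial.map_mul, Polynomial.map_pow, map_C]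
    ring
  · intro f hf hd
    exact hf (ps_zero_of c fun n => by rw [← eval_X_al]; exact (dvd_iff _).1 hd n)
  · intro f hf hd
    exact hf (ps_zero_of c fun n => by rw [← eval_X_be]; exact (dvd_iff _).1 hd n)
  · intro f
    rw [dvd_iff]
    intro n
    rw [map_sub, eval_sub, eval_X_al, eval_X_be, sub_self]

end B

end Pool.Agent.Helper55.EC
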