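import Mathlib

/-!
# Project EC, module B1: specialisation of tensors
-/

set_option autoImplicit false

namespace Pool.Agent.Helper55.EC

open TensorProduct

/-- The subring of the fractions whose denominator is prime to `ξ`. -/
def locS (B T : Type) [CommRing B] [IsDomain B] [Field T] [Algebra B T] [IsFractionRing B T]
    (ξ : B) (hξ : Prime ξ) : Subring T where
  carrier := {t | ∃ x y : B, ¬ ξ ∣ y ∧ t * algebraMap B T y = algebraMap B T x}
  zero_mem' := ⟨0, 1, fun h => hξ.not_isUnit (isUnit_of_dvd_one h), by simp⟩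
  one_mem' := ⟨1, 1, fun h => hξ.not_isUnit (isUnit_of_dvd_one h), by simp⟩
  add_mem' := by
    rintro s t ⟨x, y, h1, h2⟩ ⟨x', y', h3, h4⟩
    refine ⟨x * y' + x' * y, y * y', fun h => (hξ.dvd_or_dvd h).elim h1 h3, ?_⟩
    rw [map_add, map_mul, map_mul, map_mul, ← h2, ← h4]
    ring
  mul_mem' := by
    rintro s t ⟨x, y, h1, h2⟩ ⟨x', y', h3, h4⟩
    refine ⟨x * x', y * y', fun h => (hξ.dvd_or_dvd h).elim h1 h3, ?_⟩
    rw [map_mul, map_mul, ← h2, ← h4]
    ring
  neg_mem' := by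
    rintro s ⟨x, y, h1, h2⟩
    exact ⟨-x, y, h1, by rw [map_neg, ← h2]; ring⟩

theorem mem_locS {B T : Type} [CommRing B] [IsDomain B] [Field T] [Algebra B T]
    [IsFractionRing B T] {ξ : B} {hξ : Prime ξ} {t : T} : t ∈ locS B T ξ hξ ↔
      ∃ x y : B, ¬ ξ ∣ y ∧ t * algebraMap B T y = algebraMap B T x := Iff.rfl

/-- EC-B1 -/
theorem lim {R F A0 A B ι : Type} [CommRing R] [IsDomain R] [Field F] [Algebra R F]
    [IsFractionRing R F] [CommRing A0] [Algebra R A0] [CommRing A] [Algebra F A] [Algebra R A]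
    [IsScalarTower R F A] (j : A0 →ₐ[R] A) (hj : Function.Injective j)
    (hj' : ∀ a : A, ∃ r : R, r ≠ 0 ∧ ∃ f : A0, j f = r • a)
    [CommRing B] [IsDomain B] (α β : A0 →+* B) (ξ : B) (hξ : Prime ξ)
    (hR : ∀ r : R, α (algebraMap R A0 r) = β (algebraMap R A0 r))
    (hα : ∀ f, f ≠ 0 → ¬ ξ ∣ α f) (hβ : ∀ f, f ≠ 0 → ¬ ξ ∣ β f)
    (hαβ : ∀ f, ξ ∣ α f - β f) (γ : ℕ)
    (s : Finset ι) (u v : ι → A0) (b : A) (hb : b ≠ 0)
    (hx : (b ⊗ₜ[F] b) * ∑ l ∈ s, j (u l) ⊗ₜ[F] j (v l) ∈ (KaehlerDifferential.ideal F A) ^ γ) :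
    ξ ^ γ ∣ ∑ l ∈ s, α (u l) * β (v l) := by
  classical
  have hnt : Nontrivial A := ⟨⟨b, 0, hb⟩⟩
  -- nonzero elements of `R` stay nonzero
  have hr0 : ∀ r : R, r ≠ 0 → algebraMap R A0 r ≠ 0 := by
    intro r hr h
    have h1 : algebraMap R A r = 0 := by rw [← AlgHom.commutes j r, h, map_zero]
    rw [IsScalarTower.algebraMap_apply R F A] at h1
    have h2 : algebraMap R F r = 0 := (map_eq_zero (algebraMap F A)).1 h1
    exact hr ((IsFractionRing.injective R F) (by rw [h2, map_zero]))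
  have hru : ∀ r : R, r ≠ 0 → IsUnit (algebraMap R A r) := by
    intro r hr
    rw [IsScalarTower.algebraMap_apply R F A]
    refine (IsUnit.mk0 _ ?_).map (algebraMap F A)
    intro h
    exact hr ((IsFractionRing.injective R F) (by rw [h, map_zero]))
  let T := FractionRing B
  let m : B →+* T := algebraMap B T
  have hm : Function.Injective m := IsFractionRing.injective B T
  -- `A` is a localisation of `A0`
  let _ : Algebra A0 A := j.toRingHom.toAlgebra
  have hjm : ∀ f : A0, algebraMap A0 A f = j f := fun f => rfl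
  let M : Submonoid A0 := (nonZeroDivisors R).map (algebraMap R A0)
  have hloc : IsLocalization M A := by
    refine ⟨?_, ?_, ?_⟩
    · rintro ⟨_, r, hr, rfl⟩
      rw [hjm]
      change IsUnit (j (algebraMap R A0 r))
      rw [AlgHom.commutes]
      exact hru r (nonZeroDivisors.ne_zero hr)
    · intro a
      obtain ⟨r, hr, f, hf⟩ := hj' a
      refine ⟨(f, ⟨algebraMap R A0 r, r, mem_nonZeroDivisors_of_ne_zero hr, rfl⟩), ?_⟩
      rw [hjm, hjm, hf]
      change a * j (algebraMap R A0 r) = r • a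
      rw [AlgHom.commutes, Algebra.smul_def, mul_comm]
    · intro x y h
      exact ⟨1, by rw [hj h]⟩
  have hneR : ∀ r : R, r ≠ 0 → m (α (algebraMap R A0 r)) ≠ 0 := by
    intro r hr h
    have h1 : α (algebraMap R A0 r) = 0 := hm (by rw [h, map_zero])
    exact hα _ (hr0 r hr) (h1 ▸ dvd_zero ξ)
  have hua : ∀ y : M, IsUnit ((m.comp α) y) := by
    rintro ⟨_, r, hr, rfl⟩
    exact IsUnit.mk0 _ (hneR r (nonZeroDivisors.ne_zero hr))
  have hub : ∀ y : M, IsUnit ((m.comp β) y) := by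
    rintro ⟨_, r, hr, rfl⟩
    refine IsUnit.mk0 _ ?_
    change m (β (algebraMap R A0 r)) ≠ 0
    rw [← hR]
    exact hneR r (nonZeroDivisors.ne_zero hr)
  let a' : A →+* T := IsLocalization.lift hua
  let b' : A →+* T := IsLocalization.lift hub
  have ha' : ∀ f : A0, a' (j f) = m (α f) := fun f => IsLocalization.lift_eq hua f
  have hb' : ∀ f : A0, b' (j f) = m (β f) := fun f => IsLocalization.lift_eq hub f
  have haR : ∀ r : R, a' (algebraMap R A r) = m (α (algebraMap R A0 r)) := fun r => by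
    rw [← AlgHom.commutes j r, ha']
  have hbR : ∀ r : R, b' (algebraMap R A r) = m (α (algebraMap R A0 r)) := fun r => by
    rw [← AlgHom.commutes j r, hb', hR]
  -- `T` is an algebra over `F`
  let _ : Algebra F T := (a'.comp (algebraMap F A)).toAlgebra
  have hFa : ∀ x : F, a' (algebraMap F A x) = algebraMap F T x := fun x => rfl
  have hab : a'.comp (algebraMap F A) = b'.comp (algebraMap F A) := by
    apply IsLocalization.ringHom_ext (nonZeroDivisors R)
    ext r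
    change a' (algebraMap F A (algebraMap R F r)) = b' (algebraMap F A (algebraMap R F r))
    rw [← IsScalarTower.algebraMap_apply R F A, haR, hbR]
  have hFb : ∀ x : F, b' (algebraMap F A x) = algebraMap F T x := fun x =>
    (RingHom.congr_fun hab x).symm
  let a2 : A →ₐ[F] T := { a' with commutes' := hFa }
  let b2 : A →ₐ[F] T := { b' with commutes' := hFb }
  let Θ : A ⊗[F] A →ₐ[F] T := Algebra.TensorProduct.lift a2 b2 fun _ _ => Commute.all _ _
  have hΘ : ∀ x y : A, Θ (x ⊗ₜ[F] y) = a' x * b' y := fun x y =>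
    Algebra.TensorProduct.lift_tmul _ _ _ x y
  -- common denominators
  have hden : ∀ a : A, ∃ (r : R) (f : A0), r ≠ 0 ∧ j f = r • a ∧
      a' a * m (α (algebraMap R A0 r)) = m (α f) ∧ b' a * m (α (algebraMap R A0 r)) = m (β f) := by
    intro a
    obtain ⟨r, hr, f, hf⟩ := hj' a
    refine ⟨r, f, hr, hf, ?_, ?_⟩
    · rw [← ha' f, hf, Algebra.smul_def, map_mul, haR, mul_comm]
    · rw [← hb' f, hf, Algebra.smul_def, map_mul, hbR, mul_comm]
  have hαr : ∀ r : R, r ≠ 0 → ¬ ξ ∣ α (algebraMap R A0 r) := fun r hr => hα _ (hr0 r hr)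
  let S := locS B T ξ hξ
  have haS : ∀ a, a' a ∈ S := by
    intro a
    obtain ⟨r, f, hr, -, h1, -⟩ := hden a
    exact ⟨_, _, hαr r hr, h1⟩
  have hbS : ∀ a, b' a ∈ S := by
    intro a
    obtain ⟨r, f, hr, -, -, h1⟩ := hden a
    exact ⟨_, _, hαr r hr, h1⟩
  have hΘS : ∀ z, Θ z ∈ S := by
    intro z
    induction z using TensorProduct.induction_on with
    | zero => rw [map_zero]; exact S.zero_mem
    | tmul x y => rw [hΘ]; exact S.mul_mem (haS x) (hbS y)
    | add x y hx hy => rw [map_add]; exact S.add_mem hx hy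
  have hξ0 : m ξ ≠ 0 := fun h => hξ.ne_zero (hm (by rw [h, map_zero]))
  have hξS : m ξ ∈ S := ⟨ξ, 1, fun h => hξ.not_isUnit (isUnit_of_dvd_one h), by rw [map_one, mul_one]⟩
  let ξ' : S := ⟨m ξ, hξS⟩
  let Θ' : A ⊗[F] A →+* S := Θ.toRingHom.codRestrict S hΘS
  have hΘ' : ∀ z, ((Θ' z : S) : T) = Θ z := fun z => rfl
  have hideal : (KaehlerDifferential.ideal F A).map Θ' ≤ Ideal.span {ξ'} := by
    rw [Ideal.map_le_iff_le_comap, ← KaehlerDifferential.span_range_eq_ideal, Ideal.span_le]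
    rintro _ ⟨a, rfl⟩
    rw [SetLike.mem_coe, Ideal.mem_comap, Ideal.mem_span_singleton]
    obtain ⟨r, f, hr, -, h1, h2⟩ := hden a
    obtain ⟨c, hc⟩ := hαβ f
    have h3 : (b' a - a' a) / m ξ * m (α (algebraMap R A0 r)) = m (-c) := by
      rw [div_mul_eq_mul_div, div_eq_iff hξ0, sub_mul, h1, h2, ← map_sub, ← map_mul]
      congr 1
      linear_combination -hc
    refine ⟨⟨(b' a - a' a) / m ξ, ⟨_, _, hαr r hr, h3⟩⟩, Subtype.ext ?_⟩
    rw [hΘ', map_sub, hΘ, hΘ, map_one, map_one, one_mul, mul_one]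
    change b' a - a' a = m ξ * ((b' a - a' a) / m ξ)
    exact (mul_div_cancel₀ _ hξ0).symm
  have hpow : ξ' ^ γ ∣ Θ' ((b ⊗ₜ[F] b) * ∑ l ∈ s, j (u l) ⊗ₜ[F] j (v l)) := by
    rw [← Ideal.mem_span_singleton, ← Ideal.span_singleton_pow]
    refine Ideal.pow_right_mono hideal γ ?_
    rw [← Ideal.map_pow]
    exact Ideal.mem_map_of_mem _ hx
  obtain ⟨t, ht⟩ := hpow
  have h1 : Θ ((b ⊗ₜ[F] b) * ∑ l ∈ s, j (u l) ⊗ₜ[F] j (v l)) = m ξ ^ γ * t.1 := by
    rw [← hΘ', ht]
    rfl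
  obtain ⟨x, y, hy, hxy⟩ := t.2
  obtain ⟨r, f, hr, hf, h2, h3⟩ := hden b
  have hf0 : f ≠ 0 := by
    rintro rfl
    rw [map_zero] at hf
    apply hb
    obtain ⟨w, hw⟩ := hru r hr
    have h4 : algebraMap R A r * b = 0 := by rw [← Algebra.smul_def, ← hf]
    rw [← hw] at h4
    exact (Units.mul_right_eq_zero w).1 h4
  have h4 : Θ ((b ⊗ₜ[F] b) * ∑ l ∈ s, j (u l) ⊗ₜ[F] j (v l)) =
      a' b * b' b * m (∑ l ∈ s, α (u l) * β (v l)) := by
    rw [map_mul, hΘ, map_sum, map_sum]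
    congr 1
    refine Finset.sum_congr rfl fun l _ => ?_
    rw [hΘ, ha', hb', map_mul]
  rw [h4] at h1
  have h5 : (α f * β f * y) * (∑ l ∈ s, α (u l) * β (v l)) =
      ξ ^ γ * (x * (α (algebraMap R A0 r)) ^ 2) := by
    apply hm
    have hxy' : t.1 * m y = m x := hxy
    simp only [map_mul m, map_pow m]
    rw [← h2, ← h3, ← hxy']
    linear_combination (m (α (algebraMap R A0 r)) ^ 2 * m y) * h1
  refine hξ.pow_dvd_of_dvd_mul_left γ ?_ (Dvd.intro _ h5.symm)
  intro h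
  rcases hξ.dvd_or_dvd h with h | h
  · rcases hξ.dvd_or_dvd h with h | h
    · exact hα f hf0 h
    · exact hβ f hf0 h
  · exact hy h

end Pool.Agent.Helper55.EC
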